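import Pool.Agent.H741.EL.Stm
import Pool.Graph.R_seed8.Y508.PerimLow

/-!
# Project EL: a successful perturbation gives a better body (`S_PERT`)
-/

set_option autoImplicit false
open MeasureTheory Metric Set Filter Topology

namespace Pool.Agent.H81.EL
open Pool.Agent.Y508 Pool.Agent.H741.EL

theorem int_ip (y : E2) : ∫ θ in (0 : ℝ)..(2 * Real.pi), ip y θ = 0 := by
  unfold ip
  rw [intervalIntegral.integral_add, intervalIntegral.integral_const_mul,
    intervalIntegral.integral_const_mul, integral_cos, integral_sin]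
  · simp
  · exact (continuous_const.mul Real.continuous_cos).intervalIntegrable _ _
  · exact (continuous_const.mul Real.continuous_sin).intervalIntegrable _ _

theorem AA_pos {a b : ℝ} (hb : 0 < b) (hab : b ≤ a) : 0 < AA a b := by
  have ha : 0 < a := hb.trans_le hab
  have := Real.pi_pos
  unfold AA
  positivity

theorem rr_sq {a b : ℝ} (hb : 0 < b) (hab : b ≤ a) : Real.pi * rr a b ^ 2 = AA a b := by
  have ha : 0 < a := hb.trans_le hab
  unfold rr AA
  rw [Real.sq_sqrt (by positivity)]
  ring

/-- the perimeter of the hull of a point and a disc of radius `s` is at most `2 π R` -/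
theorem int_second (p : E2) (θp R s : ℝ) (hs0 : 0 < s) (hR : s < R) :
    ∫ θ in (0 : ℝ)..(2 * Real.pi), max (ip p θ - R * Real.cos (θ - θp) + s) (ip p θ) ≤
      2 * Real.pi * R := by
  have h1 : ∫ θ in (0 : ℝ)..(2 * Real.pi), max (ip p θ - R * Real.cos (θ - θp) + s) (ip p θ) ≤
      ∫ θ in (0 : ℝ)..(2 * Real.pi), (ip (p - R • ev θp) θ + R) := by
    apply intervalIntegral.integral_mono_on (by positivity)
    · refine Continuous.intervalIntegrable ?_ _ _
      have := cont_ip p
      fun_prop
    · refine Continuous.intervalIntegrable ?_ _ _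
      have := cont_ip (p - R • ev θp)
      fun_prop
    · intro θ _
      rw [ip_sub, ip_smul, ip_ev]
      have h2 : R * Real.cos (θ - θp) ≤ R * 1 :=
        mul_le_mul_of_nonneg_left (Real.cos_le_one _) (by linarith)
      refine max_le ?_ ?_ <;> linarith
  refine h1.trans ?_
  rw [intervalIntegral.integral_add, int_ip, intervalIntegral.integral_const]
  · simp
  · exact (cont_ip _).intervalIntegrable _ _
  · exact continuous_const.intervalIntegrable _ _

theorem t_PERT (h1 : S_BM) (h2 : S_ELL) (h3 : S_MIX) (h4 : S_PINC) (h5 : S_PCOST) : S_PERT := by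
  intro a b p K θp R s w c φ₁ hC hpq hrs hsR hW hP
  have hpi := Real.pi_pos
  have hrr : 0 ≤ rr a b := Real.sqrt_nonneg _
  have hs0 : 0 < s := by linarith
  have hAA := AA_pos hC.hb hC.hab
  -- the choice of the parameters
  obtain ⟨x, hx1, hx2⟩ := exists_between (max_lt hP.cost
    (mul_pos hP.cpos (by linarith : 0 < W K - 2 * Real.pi * R)))
  have hx0 : 0 ≤ x := (le_max_right _ _).trans hx1.le
  have e1 : ∀ᶠ δ in 𝓝[>] (0 : ℝ), ((∫ θ in (0 : ℝ)..(2 * Real.pi),
      max (hs K θ - δ * ip w θ) (ip p θ)) - W K) / δ < x :=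
    (h5 p K w hC.body hC.mem).eventually_lt_const ((le_max_left _ _).trans_lt hx1)
  have e2 := h4 a b p K θp R s w c φ₁ hC hpq hs0 hsR hP
  have e3 : ∀ᶠ δ in 𝓝[>] (0 : ℝ), c * δ < 1 := by
    have h6 : Tendsto (fun δ : ℝ => c * δ) (𝓝[>] 0) (𝓝 (c * 0)) :=
      ((continuous_const.mul continuous_id).tendsto 0).mono_left nhdsWithin_le_nhds
    rw [mul_zero] at h6
    exact h6.eventually_lt_const one_pos
  have e4 : ∀ᶠ δ in 𝓝[>] (0 : ℝ), 0 < δ := self_mem_nhdsWithin
  obtain ⟨δ, f1, f2, f3, f4⟩ := (e1.and (e2.and (e3.and e4))).exists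
  have ht0 : 0 < c * δ := mul_pos hP.cpos f4
  obtain ⟨m1, m2, m3, m4⟩ := h3 p K w θp R s δ (c * δ) hC.body hs0 ht0.le f3.le
  obtain ⟨l1, -, -, -, l5, -⟩ := h2 a b hC.hb hC.hab
  refine ⟨mix p K w θp R s δ (c * δ), m1, ?_, m2, ?_, ?_⟩
  · -- it is in the ellipse
    intro z hz
    refine mem_of_ip_le l1.cpt l1.cvx l1.ne fun θ => ?_
    refine (le_hs m1.cpt hz θ).trans ?_
    rw [m3, l5]
    exact f2 θ
  all_goals
    -- the area
    have hvol : AA a b < volume.real (mix p K w θp R s δ (c * δ)) := by
      have g1 := h1 K (mix p K w θp R s δ (c * δ)) (δ • w) (p - R • ev θp) s (c * δ) hC.body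
        m1.cpt.isClosed.measurableSet m1.cpt.measure_lt_top.ne hs0 ht0 f3 m4
      rw [hC.vol] at g1
      have g2 : Real.sqrt (AA a b) < Real.sqrt (Real.pi * s ^ 2) := by
        apply Real.sqrt_lt_sqrt hAA.le
        rw [← rr_sq hC.hb hC.hab]
        exact mul_lt_mul_of_pos_left (pow_lt_pow_left₀ hrs hrr (by norm_num)) hpi
      have g3 : Real.sqrt (AA a b) < Real.sqrt (volume.real (mix p K w θp R s δ (c * δ))) := by
        have g4 := mul_lt_mul_of_pos_left g2 ht0
        linarith
      exact (Real.sqrt_lt_sqrt_iff hAA.le).1 g3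
  · exact hvol
  · -- the perimeter
    have hWK : W (mix p K w θp R s δ (c * δ)) < W K := by
      have q1 : W (mix p K w θp R s δ (c * δ)) = (1 - c * δ) *
          (∫ θ in (0 : ℝ)..(2 * Real.pi), max (hs K θ - δ * ip w θ) (ip p θ)) + (c * δ) *
          ∫ θ in (0 : ℝ)..(2 * Real.pi), max (ip p θ - R * Real.cos (θ - θp) + s) (ip p θ) := by
        rw [← intervalIntegral.integral_const_mul, ← intervalIntegral.integral_const_mul,
          ← intervalIntegral.integral_add]
        · unfold W
          congr 1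
          funext θ
          exact m3 θ
        · refine Continuous.intervalIntegrable ?_ _ _
          have k1 := cont_ip p
          have k2 := cont_ip w
          have k3 := cont_hs hC.body.cpt
          fun_prop
        · refine Continuous.intervalIntegrable ?_ _ _
          have k1 := cont_ip p
          fun_prop
      have q2 := int_second p θp R s hs0 hsR
      rw [div_lt_iff₀ f4] at f1
      have q3 : (∫ θ in (0 : ℝ)..(2 * Real.pi), max (hs K θ - δ * ip w θ) (ip p θ)) <
          W K + x * δ := by linarith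
      rw [q1]
      have q4 := mul_lt_mul_of_pos_left q3 (by linarith : 0 < 1 - c * δ)
      have q5 := mul_le_mul_of_nonneg_left q2 ht0.le
      have q6 : (1 - c * δ) * (x * δ) ≤ x * δ := by
        have : 0 ≤ c * δ * (x * δ) := by positivity
        linarith
      have q7 : x * δ < c * (W K - 2 * Real.pi * R) * δ := mul_lt_mul_of_pos_right hx2 f4
      nlinarith
    have hW0 : 0 < W (mix p K w θp R s δ (c * δ)) := W_pos m1
    have q8 : W (mix p K w θp R s δ (c * δ)) ^ 2 < W K ^ 2 :=
      pow_lt_pow_left₀ hWK hW0.le (by norm_num)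
    calc AA a b * W (mix p K w θp R s δ (c * δ)) ^ 2 < AA a b * W K ^ 2 :=
          mul_lt_mul_of_pos_left q8 hAA
      _ ≤ volume.real (mix p K w θp R s δ (c * δ)) * W K ^ 2 :=
          mul_le_mul_of_nonneg_right hvol.le (sq_nonneg _)

end Pool.Agent.H81.EL
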